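import Pool.Agent.G9.Stmts

/-! Row EVN of squad GNI. -/

set_option autoImplicit false

namespace Pool.Agent.G9.H98

open Pool.Agent.G9

section alg

variable {K : Type} [Field K]

theorem pent {a b c d e m : K}
    (hab : a - b ≠ 0) (hac : a - c ≠ 0) (had : a - d ≠ 0) (hae : a - e ≠ 0) (hbc : b - c ≠ 0)
    (hbd : b - d ≠ 0) (hbe : b - e ≠ 0) (hcd : c - d ≠ 0) (hce : c - e ≠ 0) (hde : d - e ≠ 0) :
    (m / ((a - b) * (a - c) * (a - d) * (a - e))) *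
        (-m / ((a - b) * (b - c) * (b - d) * (b - e))) * (b - a) ^ 3 +
      (m / ((a - b) * (a - c) * (a - d) * (a - e))) *
        (m / ((a - c) * (b - c) * (c - d) * (c - e))) * (c - a) ^ 3 +
      (m / ((a - b) * (a - c) * (a - d) * (a - e))) *
        (-m / ((a - d) * (b - d) * (c - d) * (d - e))) * (d - a) ^ 3 +
      (m / ((a - b) * (a - c) * (a - d) * (a - e))) *
        (m / ((a - e) * (b - e) * (c - e) * (d - e))) * (e - a) ^ 3 +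
      (-m / ((a - b) * (b - c) * (b - d) * (b - e))) *
        (m / ((a - c) * (b - c) * (c - d) * (c - e))) * (c - b) ^ 3 +
      (-m / ((a - b) * (b - c) * (b - d) * (b - e))) *
        (-m / ((a - d) * (b - d) * (c - d) * (d - e))) * (d - b) ^ 3 +
      (-m / ((a - b) * (b - c) * (b - d) * (b - e))) *
        (m / ((a - e) * (b - e) * (c - e) * (d - e))) * (e - b) ^ 3 +
      (m / ((a - c) * (b - c) * (c - d) * (c - e))) *
        (-m / ((a - d) * (b - d) * (c - d) * (d - e))) * (d - c) ^ 3 +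
      (m / ((a - c) * (b - c) * (c - d) * (c - e))) *
        (m / ((a - e) * (b - e) * (c - e) * (d - e))) * (e - c) ^ 3 +
      (-m / ((a - d) * (b - d) * (c - d) * (d - e))) *
        (m / ((a - e) * (b - e) * (c - e) * (d - e))) * (e - d) ^ 3 =
    -2 * m ^ 2 / ((a - c) * (b - d) * (c - e) * (a - d) * (b - e)) := by
  field_simp
  ring

theorem w5ne {l1 l2 l3 l4 l5 t1 t2 t3 t4 t5 : K} (h2 : l2 ≠ 0) (h4 : l4 ≠ 0)
    (h5 : l5 ≠ 0)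
    (m0 : l1 + l2 + l3 + l4 + l5 = 0) (m1 : l1 * t1 + l2 * t2 + l3 * t3 + l4 * t4 + l5 * t5 = 0)
    (m2 : l1 * t1 ^ 2 + l2 * t2 ^ 2 + l3 * t3 ^ 2 + l4 * t4 ^ 2 + l5 * t5 ^ 2 = 0)
    (m3 : l1 * t1 ^ 3 + l2 * t2 ^ 3 + l3 * t3 ^ 3 + l4 * t4 ^ 3 + l5 * t5 ^ 3 = 0)
    (n12 : t1 ≠ t2) (n34 : t3 ≠ t4) (n45 : t4 ≠ t5) (n51 : t5 ≠ t1) :
    t1 ≠ t3 := by
  intro e13
  subst e13
  by_cases h24 : t2 = t4
  · subst h24
    have e : l5 * ((t5 - t1) * (t5 - t2)) = 0 := by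
      linear_combination m2 - (t1 + t2) * m1 + t1 * t2 * m0
    exact (mul_ne_zero h5 (mul_ne_zero (sub_ne_zero.2 n51) (sub_ne_zero.2 n45.symm))) e
  · by_cases h25 : t2 = t5
    · subst h25
      have e : l4 * ((t4 - t1) * (t4 - t2)) = 0 := by
        linear_combination m2 - (t1 + t2) * m1 + t1 * t2 * m0
      exact (mul_ne_zero h4 (mul_ne_zero (sub_ne_zero.2 n34.symm) (sub_ne_zero.2 n45))) e
    · have e : l2 * ((t2 - t1) * ((t2 - t4) * (t2 - t5))) = 0 := by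
        linear_combination m3 - (t1 + t4 + t5) * m2 + (t1 * t4 + t1 * t5 + t4 * t5) * m1 -
          t1 * t4 * t5 * m0
      exact (mul_ne_zero h2 (mul_ne_zero (sub_ne_zero.2 n12.symm) (mul_ne_zero
        (sub_ne_zero.2 h24) (sub_ne_zero.2 h25)))) e

theorem w5dist (h2 : (2 : K) ≠ 0) {l1 l2 l3 l4 l5 a b c d e : K} (h1 : l1 ≠ 0)
    (m0 : l1 + l2 + l3 + l4 + l5 = 0) (m1 : l1 * a + l2 * b + l3 * c + l4 * d + l5 * e = 0)
    (m2 : l1 * a ^ 2 + l2 * b ^ 2 + l3 * c ^ 2 + l4 * d ^ 2 + l5 * e ^ 2 = 0)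
    (m3 : l1 * a ^ 3 + l2 * b ^ 3 + l3 * c ^ 3 + l4 * d ^ 3 + l5 * e ^ 3 = 0)
    (hc : l1 * l2 * (b - a) ^ 3 + l1 * l3 * (c - a) ^ 3 + l1 * l4 * (d - a) ^ 3 +
      l1 * l5 * (e - a) ^ 3 + l2 * l3 * (c - b) ^ 3 + l2 * l4 * (d - b) ^ 3 +
      l2 * l5 * (e - b) ^ 3 + l3 * l4 * (d - c) ^ 3 + l3 * l5 * (e - c) ^ 3 +
      l4 * l5 * (e - d) ^ 3 = 0)
    (hab : a - b ≠ 0) (hac : a - c ≠ 0) (had : a - d ≠ 0) (hae : a - e ≠ 0) (hbc : b - c ≠ 0)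
    (hbd : b - d ≠ 0) (hbe : b - e ≠ 0) (hcd : c - d ≠ 0) (hce : c - e ≠ 0) (hde : d - e ≠ 0) :
    False := by
  obtain ⟨m, hm⟩ : ∃ m, m = l1 * ((a - b) * (a - c) * (a - d) * (a - e)) := ⟨_, rfl⟩
  have hm0 : m ≠ 0 := by
    rw [hm]
    exact mul_ne_zero h1 (mul_ne_zero (mul_ne_zero (mul_ne_zero hab hac) had) hae)
  have r1 : l1 = m / ((a - b) * (a - c) * (a - d) * (a - e)) := by
    rw [eq_div_iff (mul_ne_zero (mul_ne_zero (mul_ne_zero hab hac) had) hae), hm]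
  have r2 : l2 = -m / ((a - b) * (b - c) * (b - d) * (b - e)) := by
    rw [eq_div_iff (mul_ne_zero (mul_ne_zero (mul_ne_zero hab hbc) hbd) hbe), hm]
    linear_combination (a - b) * (m3 - (c + d + e) * m2 + (c * d + c * e + d * e) * m1 -
      c * d * e * m0)
  have r3 : l3 = m / ((a - c) * (b - c) * (c - d) * (c - e)) := by
    rw [eq_div_iff (mul_ne_zero (mul_ne_zero (mul_ne_zero hac hbc) hcd) hce), hm]
    linear_combination -(a - c) * (m3 - (b + d + e) * m2 + (b * d + b * e + d * e) * m1 -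
      b * d * e * m0)
  have r4 : l4 = -m / ((a - d) * (b - d) * (c - d) * (d - e)) := by
    rw [eq_div_iff (mul_ne_zero (mul_ne_zero (mul_ne_zero had hbd) hcd) hde), hm]
    linear_combination (a - d) * (m3 - (b + c + e) * m2 + (b * c + b * e + c * e) * m1 -
      b * c * e * m0)
  have r5 : l5 = m / ((a - e) * (b - e) * (c - e) * (d - e)) := by
    rw [eq_div_iff (mul_ne_zero (mul_ne_zero (mul_ne_zero hae hbe) hce) hde), hm]
    linear_combination -(a - e) * (m3 - (b + c + d) * m2 + (b * c + b * d + c * d) * m1 -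
      b * c * d * m0)
  have key := pent (m := m) hab hac had hae hbc hbd hbe hcd hce hde
  rw [← r1, ← r2, ← r3, ← r4, ← r5, hc] at key
  have hz : -2 * m ^ 2 / ((a - c) * (b - d) * (c - e) * (a - d) * (b - e)) ≠ 0 := by
    apply div_ne_zero
    · exact mul_ne_zero (neg_ne_zero.2 h2) (pow_ne_zero _ hm0)
    · exact mul_ne_zero (mul_ne_zero (mul_ne_zero (mul_ne_zero hac hbd) hce) had) hbe
  exact hz key.symm

theorem w5 (hh : (2 : K) ≠ 0) {l1 l2 l3 l4 l5 t1 t2 t3 t4 t5 : K} (h1 : l1 ≠ 0) (h2 : l2 ≠ 0)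
    (h3 : l3 ≠ 0) (h4 : l4 ≠ 0) (h5 : l5 ≠ 0)
    (m0 : l1 + l2 + l3 + l4 + l5 = 0) (m1 : l1 * t1 + l2 * t2 + l3 * t3 + l4 * t4 + l5 * t5 = 0)
    (m2 : l1 * t1 ^ 2 + l2 * t2 ^ 2 + l3 * t3 ^ 2 + l4 * t4 ^ 2 + l5 * t5 ^ 2 = 0)
    (m3 : l1 * t1 ^ 3 + l2 * t2 ^ 3 + l3 * t3 ^ 3 + l4 * t4 ^ 3 + l5 * t5 ^ 3 = 0)
    (hc : l1 * l2 * (t2 - t1) ^ 3 + l1 * l3 * (t3 - t1) ^ 3 + l1 * l4 * (t4 - t1) ^ 3 +
      l1 * l5 * (t5 - t1) ^ 3 + l2 * l3 * (t3 - t2) ^ 3 + l2 * l4 * (t4 - t2) ^ 3 +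
      l2 * l5 * (t5 - t2) ^ 3 + l3 * l4 * (t4 - t3) ^ 3 + l3 * l5 * (t5 - t3) ^ 3 +
      l4 * l5 * (t5 - t4) ^ 3 = 0)
    (n12 : t1 ≠ t2) (n23 : t2 ≠ t3) (n34 : t3 ≠ t4) (n45 : t4 ≠ t5) (n51 : t5 ≠ t1) : False := by
  have n13 : t1 ≠ t3 := w5ne h2 h4 h5 m0 m1 m2 m3 n12 n34 n45 n51
  have n24 : t2 ≠ t4 := w5ne (l1 := l2) (l2 := l3) (l3 := l4) (l4 := l5) (l5 := l1) h3 h5 h1
    (by linear_combination m0) (by linear_combination m1) (by linear_combination m2)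
    (by linear_combination m3) n23 n45 n51 n12
  have n35 : t3 ≠ t5 := w5ne (l1 := l3) (l2 := l4) (l3 := l5) (l4 := l1) (l5 := l2) h4 h1 h2
    (by linear_combination m0) (by linear_combination m1) (by linear_combination m2)
    (by linear_combination m3) n34 n51 n12 n23
  have n41 : t4 ≠ t1 := w5ne (l1 := l4) (l2 := l5) (l3 := l1) (l4 := l2) (l5 := l3) h5 h2 h3
    (by linear_combination m0) (by linear_combination m1) (by linear_combination m2)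
    (by linear_combination m3) n45 n12 n23 n34
  have n52 : t5 ≠ t2 := w5ne (l1 := l5) (l2 := l1) (l3 := l2) (l4 := l3) (l5 := l4) h1 h3 h4
    (by linear_combination m0) (by linear_combination m1) (by linear_combination m2)
    (by linear_combination m3) n51 n23 n34 n45
  exact w5dist hh h1 m0 m1 m2 m3 hc (sub_ne_zero.2 n12) (sub_ne_zero.2 n13)
    (sub_ne_zero.2 n41.symm) (sub_ne_zero.2 n51.symm) (sub_ne_zero.2 n23) (sub_ne_zero.2 n24)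
    (sub_ne_zero.2 n52.symm) (sub_ne_zero.2 n34) (sub_ne_zero.2 n35) (sub_ne_zero.2 n45)

theorem cub (h3 : (3 : K) = 0) (x y : K) : (x - y) ^ 3 = x ^ 3 - y ^ 3 := by
  linear_combination (-x ^ 2 * y + x * y ^ 2) * h3

theorem alg5 (h2 : (2 : K) ≠ 0) (h3 : (3 : K) = 0) {a0 a1 a2 a3 a4 x0 x1 x2 x3 x4 : K}
    (m1 : (a0 - a1) * x0 + (a1 - a2) * x1 + (a2 - a3) * x2 + (a3 - a4) * x3 +
      (a4 - a0) * x4 = 0)
    (m2 : (a0 - a1) * x0 ^ 2 + (a1 - a2) * x1 ^ 2 + (a2 - a3) * x2 ^ 2 + (a3 - a4) * x3 ^ 2 +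
      (a4 - a0) * x4 ^ 2 = 0)
    (m3 : (a0 - a1) * x0 ^ 3 + (a1 - a2) * x1 ^ 3 + (a2 - a3) * x2 ^ 3 + (a3 - a4) * x3 ^ 3 +
      (a4 - a0) * x4 ^ 3 = 0)
    (m4 : (a0 ^ 2 - a1 ^ 2) * x0 ^ 3 + (a1 ^ 2 - a2 ^ 2) * x1 ^ 3 + (a2 ^ 2 - a3 ^ 2) * x2 ^ 3 +
      (a3 ^ 2 - a4 ^ 2) * x3 ^ 3 + (a4 ^ 2 - a0 ^ 2) * x4 ^ 3 = 0)
    (t0 : a0 ≠ a1) (t1 : a1 ≠ a2) (t2 : a2 ≠ a3) (t3 : a3 ≠ a4) (t4 : a4 ≠ a0)
    (n0 : x0 ≠ x1) (n1 : x1 ≠ x2) (n2 : x2 ≠ x3) (n3 : x3 ≠ x4) (n4 : x4 ≠ x0) : False := by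
  refine w5 h2 (l1 := a0 - a1) (l2 := a1 - a2) (l3 := a2 - a3) (l4 := a3 - a4) (l5 := a4 - a0)
    (sub_ne_zero.2 t0) (sub_ne_zero.2 t1) (sub_ne_zero.2 t2) (sub_ne_zero.2 t3)
    (sub_ne_zero.2 t4) (by ring) m1 m2 m3 ?_ n0 n1 n2 n3 n4
  simp only [cub h3]
  linear_combination -m4 + 2 * a0 * m3

theorem alg4 (h2 : (2 : K) ≠ 0) (h3 : (3 : K) = 0) {a0 a1 a2 a3 x0 x1 x2 x3 : K}
    (m1 : (a0 - a1) * x0 + (a1 - a2) * x1 + (a2 - a3) * x2 + (a3 - a0) * x3 = 0)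
    (m2 : (a0 - a1) * x0 ^ 2 + (a1 - a2) * x1 ^ 2 + (a2 - a3) * x2 ^ 2 + (a3 - a0) * x3 ^ 2 = 0)
    (m3 : (a0 - a1) * x0 ^ 3 + (a1 - a2) * x1 ^ 3 + (a2 - a3) * x2 ^ 3 + (a3 - a0) * x3 ^ 3 = 0)
    (m4 : (a0 ^ 2 - a1 ^ 2) * x0 ^ 3 + (a1 ^ 2 - a2 ^ 2) * x1 ^ 3 + (a2 ^ 2 - a3 ^ 2) * x2 ^ 3 +
      (a3 ^ 2 - a0 ^ 2) * x3 ^ 3 = 0)
    (t0 : a0 ≠ a1) (t1 : a1 ≠ a2)
    (n0 : x0 ≠ x1) (n1 : x1 ≠ x2) (n3 : x3 ≠ x0) : False := by
  have e02 : x0 = x2 := by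
    have e : (a0 - a1) * ((x0 - x1) * ((x0 - x2) * (x0 - x3))) = 0 := by
      linear_combination m3 - (x1 + x2 + x3) * m2 + (x1 * x2 + x1 * x3 + x2 * x3) * m1
    by_contra h
    exact mul_ne_zero (sub_ne_zero.2 t0) (mul_ne_zero (sub_ne_zero.2 n0)
      (mul_ne_zero (sub_ne_zero.2 h) (sub_ne_zero.2 n3.symm))) e
  subst e02
  have e13 : x1 = x3 := by
    have e : (a1 - a2) * ((x1 - x0) * (x1 - x3)) = 0 := by
      linear_combination m2 - (x0 + x3) * m1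
    by_contra h
    exact mul_ne_zero (sub_ne_zero.2 t1) (mul_ne_zero (sub_ne_zero.2 n0.symm)
      (sub_ne_zero.2 h)) e
  subst e13
  have e2 : a0 - a1 + (a2 - a3) = 0 := by
    have e : (a0 - a1 + (a2 - a3)) * (x0 - x1) = 0 := by linear_combination m1
    rcases mul_eq_zero.1 e with h | h
    · exact h
    · exact absurd h (sub_ne_zero.2 n0)
  have e3 : a3 = a0 - a1 + a2 := by linear_combination -e2
  subst e3
  have e : 2 * ((a0 - a1) * ((a1 - a2) * (x0 - x1) ^ 3)) = 0 := by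
    rw [cub h3]
    linear_combination m4
  exact mul_ne_zero h2 (mul_ne_zero (sub_ne_zero.2 t0) (mul_ne_zero (sub_ne_zero.2 t1)
    (pow_ne_zero _ (sub_ne_zero.2 n0)))) e

theorem alg3 {a0 a1 a2 x0 x1 x2 : K}
    (m1 : (a0 - a1) * x0 + (a1 - a2) * x1 + (a2 - a0) * x2 = 0)
    (m2 : (a0 - a1) * x0 ^ 2 + (a1 - a2) * x1 ^ 2 + (a2 - a0) * x2 ^ 2 = 0)
    (t0 : a0 ≠ a1) (n0 : x0 ≠ x1) (n2 : x2 ≠ x0) : False := by
  have e : (a0 - a1) * ((x0 - x1) * (x0 - x2)) = 0 := by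
    linear_combination m2 - (x1 + x2) * m1
  exact mul_ne_zero (sub_ne_zero.2 t0) (mul_ne_zero (sub_ne_zero.2 n0)
    (sub_ne_zero.2 n2.symm)) e

theorem alg2 {a0 a1 x0 x1 : K} (m1 : (a0 - a1) * x0 + (a1 - a0) * x1 = 0)
    (t0 : a0 ≠ a1) (n0 : x0 ≠ x1) : False := by
  have e : (a0 - a1) * (x0 - x1) = 0 := by linear_combination m1
  exact mul_ne_zero (sub_ne_zero.2 t0) (sub_ne_zero.2 n0) e

end alg

section geo

variable {F : Type} [Field F] {σ : F ≃+* F}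

theorem stp (hσ : ∀ x, σ (σ x) = x ^ 3) {P Q R : V9 F} (h1 : (gr9 σ).Adj P Q)
    (h2 : (gr9 σ).Adj Q R) :
    (σ P.1 - σ R.1) * Q.1 = P.2.2.1 - R.2.2.1 ∧
    (σ P.1 - σ R.1) * Q.1 ^ 2 = P.2.2.2.2 - R.2.2.2.2 ∧
    (σ P.1 - σ R.1) * Q.1 ^ 3 = σ P.2.1 - σ R.2.1 ∧
    ((σ P.1) ^ 2 - (σ R.1) ^ 2) * Q.1 ^ 3 = σ P.2.2.2.1 - σ R.2.2.2.1 := by
  obtain ⟨-, p1, p2, p3, p4⟩ := h1
  obtain ⟨-, r1, r2, r3, r4⟩ := h2.symm
  refine ⟨by linear_combination -p1 + r1, by linear_combination -p3 + r3, ?_, ?_⟩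
  · have e : P.2.1 - R.2.1 = (P.1 - R.1) * σ Q.1 := by linear_combination p2 - r2
    have e2 := congrArg σ e
    rw [map_sub, map_mul, map_sub, hσ] at e2
    rw [e2]
  · have e : P.2.2.2.1 - R.2.2.2.1 = (P.1 ^ 2 - R.1 ^ 2) * σ Q.1 := by
      linear_combination p4 - r4
    have e2 := congrArg σ e
    rw [map_sub, map_mul, map_sub, map_pow, map_pow, hσ] at e2
    rw [e2]

theorem ne1 {P Q R : V9 F} (h1 : (gr9 σ).Adj P Q) (h2 : (gr9 σ).Adj Q R) (hne : P ≠ R) :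
    P.1 ≠ R.1 := by
  intro h
  apply hne
  obtain ⟨-, p1, p2, p3, p4⟩ := h1
  obtain ⟨-, r1, r2, r3, r4⟩ := h2.symm
  rw [← h] at r1 r2 r3 r4
  refine Prod.ext h (Prod.ext ?_ (Prod.ext ?_ (Prod.ext ?_ ?_)))
  · linear_combination p2 - r2
  · linear_combination p1 - r1
  · linear_combination p4 - r4
  · linear_combination p3 - r3

end geo

theorem evn : EvnStmt := by
  intro F _ _ σ hσ k hk2 hk5 v hper hadj hne
  have h3 : (3 : F) = 0 := by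
    have := CharP.cast_eq_zero F 3
    exact_mod_cast this
  have h2 : (2 : F) ≠ 0 := by
    intro h
    have : (1 : F) = 0 := by linear_combination h3 - h
    exact one_ne_zero this
  have st := fun i => stp hσ (hadj i) (hadj (i + 1))
  have na := fun i => ne1 (hadj i) (hadj (i + 1)) (hne i)
  have nb : ∀ i, σ (v i).1 ≠ σ (v (i + 1 + 1)).1 := fun i h => na i (σ.injective h)
  have hk : k = 2 ∨ k = 3 ∨ k = 4 ∨ k = 5 := by omega
  rcases hk with rfl | rfl | rfl | rfl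
  · have e0 : v 4 = v 0 := hper 0
    obtain ⟨s1, -, -, -⟩ := st 0
    obtain ⟨t1, -, -, -⟩ := st 2
    have n0 := nb 0
    have x0 := na 1
    simp only [Nat.reduceAdd, e0] at s1 t1 n0 x0
    exact alg2 (a0 := σ (v 0).1) (a1 := σ (v 2).1) (x0 := (v 1).1) (x1 := (v 3).1)
      (by linear_combination s1 + t1) n0 x0
  · have e0 : v 6 = v 0 := hper 0
    have e1 : v 7 = v 1 := hper 1
    obtain ⟨s1, s2, -, -⟩ := st 0
    obtain ⟨t1, t2, -, -⟩ := st 2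
    obtain ⟨u1, u2, -, -⟩ := st 4
    have n0 := nb 0
    have x0 := na 1
    have x2 := na 5
    simp only [Nat.reduceAdd, e0, e1] at s1 s2 t1 t2 u1 u2 n0 x0 x2
    exact alg3 (a0 := σ (v 0).1) (a1 := σ (v 2).1) (a2 := σ (v 4).1) (x0 := (v 1).1)
      (x1 := (v 3).1) (x2 := (v 5).1) (by linear_combination s1 + t1 + u1)
      (by linear_combination s2 + t2 + u2) n0 x0 x2
  · have e0 : v 8 = v 0 := hper 0
    have e1 : v 9 = v 1 := hper 1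
    obtain ⟨s1, s2, s3, s4⟩ := st 0
    obtain ⟨t1, t2, t3, t4⟩ := st 2
    obtain ⟨u1, u2, u3, u4⟩ := st 4
    obtain ⟨w1, w2, w3, w4⟩ := st 6
    have n0 := nb 0
    have n1 := nb 2
    have x0 := na 1
    have x1 := na 3
    have x3 := na 7
    simp only [Nat.reduceAdd, e0, e1] at s1 s2 s3 s4 t1 t2 t3 t4 u1 u2 u3 u4 w1 w2 w3 w4 n0 n1 x0 x1 x3
    exact alg4 (a0 := σ (v 0).1) (a1 := σ (v 2).1) (a2 := σ (v 4).1) (a3 := σ (v 6).1)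
      (x0 := (v 1).1) (x1 := (v 3).1) (x2 := (v 5).1) (x3 := (v 7).1) h2 h3 (by linear_combination s1 + t1 + u1 + w1)
      (by linear_combination s2 + t2 + u2 + w2) (by linear_combination s3 + t3 + u3 + w3)
      (by linear_combination s4 + t4 + u4 + w4) n0 n1 x0 x1 x3
  · have e0 : v 10 = v 0 := hper 0
    have e1 : v 11 = v 1 := hper 1
    obtain ⟨s1, s2, s3, s4⟩ := st 0
    obtain ⟨t1, t2, t3, t4⟩ := st 2
    obtain ⟨u1, u2, u3, u4⟩ := st 4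
    obtain ⟨w1, w2, w3, w4⟩ := st 6
    obtain ⟨z1, z2, z3, z4⟩ := st 8
    have n0 := nb 0
    have n1 := nb 2
    have n2 := nb 4
    have n3 := nb 6
    have n4 := nb 8
    have x0 := na 1
    have x1 := na 3
    have x2 := na 5
    have x3 := na 7
    have x4 := na 9
    simp only [Nat.reduceAdd, e0, e1] at s1 s2 s3 s4 t1 t2 t3 t4 u1 u2 u3 u4 w1 w2 w3 w4 z1 z2 z3 z4 n0 n1 n2 n3 n4 x0 x1 x2 x3 x4
    exact alg5 (a0 := σ (v 0).1) (a1 := σ (v 2).1) (a2 := σ (v 4).1) (a3 := σ (v 6).1)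
      (a4 := σ (v 8).1) (x0 := (v 1).1) (x1 := (v 3).1) (x2 := (v 5).1) (x3 := (v 7).1)
      (x4 := (v 9).1) h2 h3 (by linear_combination s1 + t1 + u1 + w1 + z1)
      (by linear_combination s2 + t2 + u2 + w2 + z2)
      (by linear_combination s3 + t3 + u3 + w3 + z3)
      (by linear_combination s4 + t4 + u4 + w4 + z4) n0 n1 n2 n3 n4 x0 x1 x2 x3 x4

end Pool.Agent.G9.H98
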