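import Pool.Agent.G9.Stmts

/-!
# Row GRQ of squad GNI
-/

set_option autoImplicit false

namespace Pool.Agent.G9.H98

open Finset

section nb

variable {F : Type} [Field F]

/-- the vertex incident with `u` with first coordinate `a` -/
def nbv (σ : F ≃+* F) (u : V9 F) (a : F) : V9 F :=
  (a, σ u.1 * a - u.2.2.1, u.1 * σ a - u.2.1, σ u.1 * a ^ 2 - u.2.2.2.2,
    u.1 ^ 2 * σ a - u.2.2.2.1)

theorem inc_iff (σ : F ≃+* F) (u v : V9 F) : Inc σ u v ↔ v = nbv σ u v.1 := by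
  obtain ⟨a, b, c, d, e⟩ := u
  obtain ⟨a', b', c', d', e'⟩ := v
  unfold Inc nbv
  simp only [Prod.mk.injEq, true_and]
  constructor
  · rintro ⟨h1, h2, h3, h4⟩
    exact ⟨by linear_combination h1, by linear_combination h2, by linear_combination h3,
      by linear_combination h4⟩
  · rintro ⟨h1, h2, h3, h4⟩
    exact ⟨by linear_combination h1, by linear_combination h2, by linear_combination h3,
      by linear_combination h4⟩

theorem nbv_inj (σ : F ≃+* F) (u : V9 F) : Function.Injective (nbv σ u) := by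
  intro a b h
  exact congrArg Prod.fst h

variable [Fintype F] [DecidableEq F]

open Classical in
theorem filter_inc (σ : F ≃+* F) (u : V9 F) :
    (univ.filter fun v => Inc σ u v) = univ.image (nbv σ u) := by
  ext v
  simp only [mem_filter, mem_univ, true_and, mem_image]
  rw [inc_iff]
  constructor
  · intro h
    exact ⟨v.1, h.symm⟩
  · rintro ⟨a, rfl⟩
    rfl

open Classical in
theorem sum_inc_one (σ : F ≃+* F) (u : V9 F) :
    ∑ v, (if Inc σ u v then (1 : ℝ) else 0) = Fintype.card F := by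
  rw [← Finset.sum_filter, filter_inc, Finset.sum_const, Finset.card_image_of_injective _
    (nbv_inj σ u), card_univ]
  simp

open Classical in
theorem adj_ite (σ : F ≃+* F) (u v : V9 F) (c : ℝ) :
    (if (gr9 σ).Adj u v then c else 0) =
      (if Inc σ u v then c else 0) - (if v = u then (if Inc σ u v then c else 0) else 0) := by
  have e : (gr9 σ).Adj u v ↔ u ≠ v ∧ Inc σ u v := Iff.rfl
  by_cases h : v = u
  · subst h
    rw [if_pos rfl, sub_self, if_neg]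
    intro h
    exact h.1 rfl
  · rw [if_neg h, sub_zero]
    by_cases h2 : Inc σ u v
    · rw [if_pos h2, if_pos (e.2 ⟨fun h3 => h h3.symm, h2⟩)]
    · rw [if_neg h2, if_neg (fun h3 => h2 (e.1 h3).2)]

open Classical in
theorem sum_adj (σ : F ≃+* F) (u : V9 F) (g : V9 F → ℝ) :
    ∑ v, (if (gr9 σ).Adj u v then g v else 0) =
      ∑ v, (if Inc σ u v then g v else 0) - (if Inc σ u u then g u else 0) := by
  rw [Finset.sum_congr rfl fun v _ => adj_ite σ u v (g v), Finset.sum_sub_distrib]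
  congr 1
  rw [Finset.sum_ite_eq' univ u (fun v => if Inc σ u v then g v else 0), if_pos (mem_univ _)]

open Classical in
theorem deg_le (σ : F ≃+* F) (u : V9 F) : (gr9 σ).degree u ≤ Fintype.card F := by
  rw [← SimpleGraph.card_neighborFinset_eq_degree]
  have h : (gr9 σ).neighborFinset u ⊆ univ.image (nbv σ u) := by
    intro v hv
    rw [SimpleGraph.mem_neighborFinset] at hv
    rw [← filter_inc, mem_filter]
    exact ⟨mem_univ _, hv.2⟩
  refine (Finset.card_le_card h).trans ?_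
  refine Finset.card_image_le.trans ?_
  rw [card_univ]

open Classical in
theorem num_ge (σ : F ≃+* F) :
    (Fintype.card F : ℝ) ^ 5 * (Fintype.card F - 1) ≤
      ∑ u : V9 F, ∑ v, (if (gr9 σ).Adj u v then (1 : ℝ) else 0) := by
  have h1 : ∀ u : V9 F, (Fintype.card F : ℝ) - 1 ≤
      ∑ v, (if (gr9 σ).Adj u v then (1 : ℝ) else 0) := by
    intro u
    rw [sum_adj σ u (fun _ => 1), sum_inc_one]
    by_cases h : Inc σ u u
    · rw [if_pos h]
    · rw [if_neg h]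
      linarith
  have h2 : ∑ _u : V9 F, ((Fintype.card F : ℝ) - 1) =
      (Fintype.card F : ℝ) ^ 5 * (Fintype.card F - 1) := by
    rw [Finset.sum_const, card_univ, nsmul_eq_mul]
    simp only [Fintype.card_prod]
    push_cast
    ring
  rw [← h2]
  exact Finset.sum_le_sum fun u _ => h1 u

open Classical in
theorem form_ge [CharP F 3] (hL : LowStmt) (σ : F ≃+* F) (hσ : ∀ x, σ (σ x) = x ^ 3)
    (hq : Fintype.card F % 4 = 3) (x : V9 F → ℝ) (hx : ∀ v, x v = 1 ∨ x v = -1) :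
    -(5 * Real.sqrt (Fintype.card F) * (Fintype.card F : ℝ) ^ 5) ≤
      ∑ u : V9 F, ∑ v, (if (gr9 σ).Adj u v then x u * x v else 0) := by
  have h1 := hL F σ hσ hq x hx
  have h2 : ∑ u : V9 F, ∑ v, (if (gr9 σ).Adj u v then x u * x v else 0) =
      ∑ u, ∑ v, (if Inc σ u v then x u * x v else 0) -
        ∑ u, (if Inc σ u u then x u * x u else 0) := by
    rw [← Finset.sum_sub_distrib]
    refine Finset.sum_congr rfl fun u _ => ?_
    exact sum_adj σ u (fun v => x u * x v)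
  have h3 : ∑ u : V9 F, (if Inc σ u u then x u * x u else 0) ≤ (Fintype.card F : ℝ) ^ 5 := by
    have h4 : ∀ u : V9 F, (if Inc σ u u then x u * x u else 0) ≤ (1 : ℝ) := by
      intro u
      by_cases h : Inc σ u u
      · rw [if_pos h]
        rcases hx u with h | h <;> rw [h] <;> norm_num
      · rw [if_neg h]
        norm_num
    refine (Finset.sum_le_sum fun u _ => h4 u).trans (le_of_eq ?_)
    rw [Finset.sum_const, card_univ, nsmul_eq_mul]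
    simp only [Fintype.card_prod]
    push_cast
    ring
  have h5 : (1 : ℝ) ≤ Real.sqrt (Fintype.card F) := by
    rw [Real.one_le_sqrt]
    exact_mod_cast Fintype.card_pos
  have h6 : (0 : ℝ) ≤ (Fintype.card F : ℝ) ^ 5 := by positivity
  rw [h2]
  nlinarith [mul_le_mul_of_nonneg_right h5 h6]

end nb

theorem good_mono {r m : ℕ} {K K' : ℝ} (h : GoodG r m K) (hK : K ≤ K') : GoodG r m K' := by
  obtain ⟨V, fV, G, hG, nG, cG⟩ := h
  exact ⟨V, fV, G, hG, nG, fun S => (cG S).trans (by linarith)⟩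

theorem sqrt_ten (Q : ℝ) (hQ : 0 < Q) (a b : ℕ) (hab : a = b + 10) :
    Real.sqrt (Q ^ a / Q ^ b) = Q ^ 5 := by
  have e : Q ^ a / Q ^ b = (Q ^ 5) ^ 2 := by
    rw [hab, pow_add, mul_div_assoc, mul_comm, div_mul_cancel₀ _ (pow_pos hQ b).ne']
    ring
  rw [e, Real.sqrt_sq (by positivity)]

theorem grq (hL : LowStmt) (hE : EvnStmt) (hF : FldStmt) (hD : DelStmt) : GrqStmt := by
  intro s hs
  obtain ⟨Q, hQ⟩ : ∃ Q : ℕ, Q = 3 ^ s := ⟨_, rfl⟩
  have hQr : ((3 : ℝ) ^ s) = (Q : ℝ) := by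
    rw [hQ]
    push_cast
    rfl
  have hQ1 : 1 ≤ Q := by
    rw [hQ]
    exact Nat.one_le_pow _ _ (by norm_num)
  have hQ1' : (1 : ℝ) ≤ Q := by exact_mod_cast hQ1
  have hQ0 : (0 : ℝ) < Q := by linarith
  rw [hQr]
  have main : ∀ a b : ℕ, Odd a → a = b + 10 →
      ∃ (V : Type) (_ : Fintype V) (_ : DecidableEq V) (_ : Nonempty V) (G : SimpleGraph V)
        (_ : DecidableRel G.Adj), Fintype.card V = Q ^ (5 * a) ∧ NoEven G ∧
        (∀ v, G.degree v ≤ Q ^ a) ∧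
        (∀ x : V → ℝ, (∀ v, x v = 1 ∨ x v = -1) →
          -(5 * Real.sqrt ((Q : ℝ) ^ a) * (Q : ℝ) ^ (5 * a)) ≤
            ∑ u, ∑ v, (if G.Adj u v then x u * x v else 0)) ∧
        (Q : ℝ) ^ (5 * a) * ((Q : ℝ) ^ a - 1) ≤ ∑ u, ∑ v, (if G.Adj u v then (1 : ℝ) else 0) := by
    intro a b ha hab
    obtain ⟨F, iF, iFt, iC, σ, hcard, hσ, hq4⟩ := hF (s * a) (hs.mul ha)
    classical
    have hc : Fintype.card F = Q ^ a := by
      rw [hcard, hQ, pow_mul]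
    have hc' : (Fintype.card F : ℝ) = (Q : ℝ) ^ a := by
      rw [hc]
      push_cast
      rfl
    have hc5 : (Fintype.card F : ℝ) ^ 5 = (Q : ℝ) ^ (5 * a) := by
      rw [hc', ← pow_mul, mul_comm]
    refine ⟨V9 F, inferInstance, inferInstance, inferInstance, gr9 σ, inferInstance, ?_,
      hE F σ hσ, ?_, ?_, ?_⟩
    · simp only [Fintype.card_prod]
      rw [hc]
      ring
    · intro v
      rw [← hc]
      exact deg_le σ v
    · intro x hx
      have h := form_ge hL σ hσ hq4 x hx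
      rw [hc5, hc'] at h
      exact h
    · have h := num_ge σ
      rw [hc5, hc'] at h
      exact h
  constructor
  · obtain ⟨V, iV, iD, iN, G, iA, hV, hNE, hdeg, hlow, hnum⟩ := main 13 3 ⟨6, rfl⟩ rfl
    obtain ⟨⟨e, h1, h2, h3⟩, -⟩ := hD V G (Q ^ 3) (Q ^ 13)
      (5 * Real.sqrt ((Q : ℝ) ^ 13) * (Q : ℝ) ^ (5 * 13))
      (6 * Fintype.card V * Real.sqrt (((Q ^ 13 : ℕ) : ℝ) / ((Q ^ 3 : ℕ) : ℝ)))
      (Nat.one_le_pow _ _ hQ1) (Nat.pow_le_pow_right hQ1 (by norm_num)) hNE hdeg hlow rfl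
    have hVr : (Fintype.card V : ℝ) = (Q : ℝ) ^ 65 := by
      rw [hV]
      push_cast
      rfl
    have hs5 : Real.sqrt (((Q ^ 13 : ℕ) : ℝ) / ((Q ^ 3 : ℕ) : ℝ)) = (Q : ℝ) ^ 5 := by
      push_cast
      exact sqrt_ten _ hQ0 13 3 rfl
    have e1 : 6 * (Fintype.card V : ℝ) * ((Q ^ 13 : ℕ) : ℝ) ^ 2 / ((Q ^ 3 : ℕ) : ℝ) ^ 7 =
        6 * (Q : ℝ) ^ 70 := by
      rw [hVr]
      push_cast
      rw [div_eq_iff (by positivity)]
      ring
    have e2 : (Fintype.card V : ℝ) * ((Q ^ 13 : ℕ) : ℝ) / ((Q ^ 3 : ℕ) : ℝ) = (Q : ℝ) ^ 75 := by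
      rw [hVr]
      push_cast
      rw [div_eq_iff (by positivity)]
      ring
    have e3 : 6 * (Fintype.card V : ℝ) * (Q : ℝ) ^ 5 = 6 * (Q : ℝ) ^ 70 := by
      rw [hVr]
      ring
    rw [hs5, e1, e3] at h1 h3
    rw [e2] at h2
    have e4 : (Q : ℝ) ^ 75 - (Q : ℝ) ^ 62 ≤
        (∑ u, ∑ v, (if G.Adj u v then (1 : ℝ) else 0)) / ((Q ^ 3 : ℕ) : ℝ) := by
      rw [le_div_iff₀ (by positivity)]
      refine le_trans (le_of_eq ?_) hnum
      push_cast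
      ring
    have e5 : (Q : ℝ) ^ 62 ≤ (Q : ℝ) ^ 70 := pow_le_pow_right₀ hQ1' (by norm_num)
    refine ⟨e, by linarith, by linarith, good_mono h3 ?_⟩
    have e6 : Real.sqrt ((Q : ℝ) ^ 13) ≤ (Q : ℝ) ^ 7 := by
      rw [Real.sqrt_le_left (by positivity), ← pow_mul]
      exact pow_le_pow_right₀ hQ1' (by norm_num)
    have e7 : 5 * Real.sqrt ((Q : ℝ) ^ 13) * (Q : ℝ) ^ (5 * 13) / ((Q ^ 3 : ℕ) : ℝ) ≤
        5 * (Q : ℝ) ^ 70 := by
      rw [div_le_iff₀ (by positivity)]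
      have e8 : 5 * Real.sqrt ((Q : ℝ) ^ 13) * (Q : ℝ) ^ (5 * 13) ≤
          5 * (Q : ℝ) ^ 7 * (Q : ℝ) ^ (5 * 13) :=
        mul_le_mul_of_nonneg_right (by linarith) (by positivity)
      refine e8.trans ?_
      push_cast
      have e9 : 5 * (Q : ℝ) ^ 7 * (Q : ℝ) ^ (5 * 13) = 5 * (Q : ℝ) ^ 72 := by ring
      have e10 : 5 * (Q : ℝ) ^ 70 * (Q : ℝ) ^ 3 = 5 * (Q : ℝ) ^ 73 := by ring
      rw [e9, e10]
      have := pow_le_pow_right₀ hQ1' (show 72 ≤ 73 by norm_num)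
      linarith
    have h70 : 0 ≤ (Q : ℝ) ^ 70 := by positivity
    linarith
  · obtain ⟨V, iV, iD, iN, G, iA, hV, hNE, hdeg, hlow, hnum⟩ := main 17 7 ⟨8, rfl⟩ rfl
    obtain ⟨-, ⟨e, h1, h2, h3⟩⟩ := hD V G (Q ^ 7) (Q ^ 17)
      (5 * Real.sqrt ((Q : ℝ) ^ 17) * (Q : ℝ) ^ (5 * 17))
      (6 * Fintype.card V * Real.sqrt (((Q ^ 17 : ℕ) : ℝ) / ((Q ^ 7 : ℕ) : ℝ)))
      (Nat.one_le_pow _ _ hQ1) (Nat.pow_le_pow_right hQ1 (by norm_num)) hNE hdeg hlow rfl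
    have hVr : (Fintype.card V : ℝ) = (Q : ℝ) ^ 85 := by
      rw [hV]
      push_cast
      rfl
    have hs5 : Real.sqrt (((Q ^ 17 : ℕ) : ℝ) / ((Q ^ 7 : ℕ) : ℝ)) = (Q : ℝ) ^ 5 := by
      push_cast
      exact sqrt_ten _ hQ0 17 7 rfl
    have e1 : 6 * (Fintype.card V : ℝ) * (((Q ^ 17 : ℕ) : ℝ) ^ 2 / ((Q ^ 7 : ℕ) : ℝ) ^ 7 +
        ((Q ^ 17 : ℕ) : ℝ) ^ 4 / ((Q ^ 7 : ℕ) : ℝ) ^ 9) ≤ 12 * (Q : ℝ) ^ 90 := by
      have f1 : ((Q ^ 17 : ℕ) : ℝ) ^ 2 / ((Q ^ 7 : ℕ) : ℝ) ^ 7 ≤ (Q : ℝ) ^ 5 := by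
        push_cast
        rw [div_le_iff₀ (by positivity)]
        have f2 : ((Q : ℝ) ^ 17) ^ 2 = (Q : ℝ) ^ 34 := by ring
        have f3 : (Q : ℝ) ^ 5 * ((Q : ℝ) ^ 7) ^ 7 = (Q : ℝ) ^ 54 := by ring
        rw [f2, f3]
        exact pow_le_pow_right₀ hQ1' (by norm_num)
      have f4 : ((Q ^ 17 : ℕ) : ℝ) ^ 4 / ((Q ^ 7 : ℕ) : ℝ) ^ 9 = (Q : ℝ) ^ 5 := by
        push_cast
        rw [div_eq_iff (by positivity)]
        ring
      rw [hVr, f4]
      have f5 : 6 * (Q : ℝ) ^ 85 * (((Q ^ 17 : ℕ) : ℝ) ^ 2 / ((Q ^ 7 : ℕ) : ℝ) ^ 7 + (Q : ℝ) ^ 5) ≤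
          6 * (Q : ℝ) ^ 85 * ((Q : ℝ) ^ 5 + (Q : ℝ) ^ 5) :=
        mul_le_mul_of_nonneg_left (by linarith) (by positivity)
      refine f5.trans (le_of_eq ?_)
      ring
    have e2 : (Fintype.card V : ℝ) * ((Q ^ 17 : ℕ) : ℝ) / ((Q ^ 7 : ℕ) : ℝ) = (Q : ℝ) ^ 95 := by
      rw [hVr]
      push_cast
      rw [div_eq_iff (by positivity)]
      ring
    have e3 : 6 * (Fintype.card V : ℝ) * (Q : ℝ) ^ 5 = 6 * (Q : ℝ) ^ 90 := by
      rw [hVr]
      ring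
    rw [hs5, e3] at h1 h3
    rw [e2] at h2
    have e4 : (Q : ℝ) ^ 95 - (Q : ℝ) ^ 78 ≤
        (∑ u, ∑ v, (if G.Adj u v then (1 : ℝ) else 0)) / ((Q ^ 7 : ℕ) : ℝ) := by
      rw [le_div_iff₀ (by positivity)]
      refine le_trans (le_of_eq ?_) hnum
      push_cast
      ring
    have e5 : (Q : ℝ) ^ 78 ≤ (Q : ℝ) ^ 90 := pow_le_pow_right₀ hQ1' (by norm_num)
    refine ⟨e, by linarith, by linarith, good_mono h3 ?_⟩
    have e6 : Real.sqrt ((Q : ℝ) ^ 17) ≤ (Q : ℝ) ^ 9 := by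
      rw [Real.sqrt_le_left (by positivity), ← pow_mul]
      exact pow_le_pow_right₀ hQ1' (by norm_num)
    have e7 : 5 * Real.sqrt ((Q : ℝ) ^ 17) * (Q : ℝ) ^ (5 * 17) / ((Q ^ 7 : ℕ) : ℝ) ≤
        5 * (Q : ℝ) ^ 90 := by
      rw [div_le_iff₀ (by positivity)]
      have e8 : 5 * Real.sqrt ((Q : ℝ) ^ 17) * (Q : ℝ) ^ (5 * 17) ≤
          5 * (Q : ℝ) ^ 9 * (Q : ℝ) ^ (5 * 17) :=
        mul_le_mul_of_nonneg_right (by linarith) (by positivity)
      refine e8.trans ?_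
      push_cast
      have e9 : 5 * (Q : ℝ) ^ 9 * (Q : ℝ) ^ (5 * 17) = 5 * (Q : ℝ) ^ 94 := by ring
      have e10 : 5 * (Q : ℝ) ^ 90 * (Q : ℝ) ^ 7 = 5 * (Q : ℝ) ^ 97 := by ring
      rw [e9, e10]
      have := pow_le_pow_right₀ hQ1' (show 94 ≤ 97 by norm_num)
      linarith
    have h90 : 0 ≤ (Q : ℝ) ^ 90 := by positivity
    linarith

end Pool.Agent.G9.H98
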